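import Pool.Agent.H61.FA.Fin

/-!
# An explicit algebraic graph in `F_e(3,3; H₀)` (MP_eb1b1c_co)

Let `K` be a finite field of characteristic two with `q ≥ 256` elements. For `i : K` and `a = (a₁, a₂) : K ^ 2` put
`w i a = (i a₁, i² a₁, i a₂, i³ a₂, i³ a₁ + i² a₂)` and `f i j = (i j² - i² j, i j³ - i³ j)`. The vertices of the graph are
the `q ^ 6` pairs `(i, s)`, `i : K`, `s : K ^ 5`; the vertices `(i, s)` and `(j, t)` are adjacent if `i ≠ j` and
`t = s + w i a - w j (a + f i j)` for some `a : K ^ 2`.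

This graph does not contain `H₀` (`K₅` minus the edges `01`, `23`, `34`) and it does not contain `K₄`; every colouring of
its edges with two colours has a monochromatic triangle. With `q = 256` it has `2 ^ 48` vertices.
-/

set_option autoImplicit false

namespace Pool.Agent.Results.MP_eb1b1c_co.AlgebraicGraph

/-- a copy of `K₅` minus the edges `01`, `23`, `34` (a subgraph, not necessarily induced) -/
def ContainsH0 {V : Type} (G : SimpleGraph V) : Prop :=
  ∃ f : Fin 5 → V, Function.Injective f ∧ ∀ i j : Fin 5, i ≠ j →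
    ¬ ((i = 0 ∧ j = 1) ∨ (i = 1 ∧ j = 0) ∨ (i = 2 ∧ j = 3) ∨ (i = 3 ∧ j = 2) ∨
      (i = 3 ∧ j = 4) ∨ (i = 4 ∧ j = 3)) → G.Adj (f i) (f j)

/-- every colouring of the edges with two colours has a monochromatic triangle -/
def Arrows {V : Type} (G : SimpleGraph V) : Prop :=
  ∀ c : V → V → Bool, (∀ x y : V, G.Adj x y → c x y = c y x) →
    ∃ x y z : V, G.Adj x y ∧ G.Adj y z ∧ G.Adj x z ∧ c x y = c y z ∧ c y z = c x z

/-- the linear maps `w i : K ^ 2 → K ^ 5` -/
def w {K : Type} [Field K] (i : K) (a : K × K) : K × K × K × K × K :=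
  (i * a.1, i ^ 2 * a.1, i * a.2, i ^ 3 * a.2, i ^ 3 * a.1 + i ^ 2 * a.2)

/-- the voltages -/
def f {K : Type} [Field K] (i j : K) : K × K := (i * j ^ 2 - i ^ 2 * j, i * j ^ 3 - i ^ 3 * j)

/-- adjacency of `(i, s)` and `(j, t)` -/
def Adj {K : Type} [Field K] (u v : K × (K × K × K × K × K)) : Prop :=
  u.1 ≠ v.1 ∧ ∃ a : K × K, v.2 = u.2 + w u.1 a - w v.1 (a + f u.1 v.1)

theorem adj_iff {K : Type} [Field K] (u v : K × (K × K × K × K × K)) :
    Adj u v ↔ Pool.Agent.H61.FA.Adj u v := by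
  constructor
  · rintro ⟨h1, a, h2⟩
    exact ⟨h1, a, Prod.ext rfl h2⟩
  · rintro ⟨h1, a, h2⟩
    exact ⟨h1, a, congrArg Prod.snd h2⟩

/-- the graph of the field `K` -/
def graph (K : Type) [Field K] : SimpleGraph (K × (K × K × K × K × K)) where
  Adj u v := Adj u v
  symm := ⟨fun u v h => (adj_iff v u).2 ((adj_iff u v).1 h).symm⟩
  loopless := ⟨fun _ h => h.1 rfl⟩

theorem main (K : Type) [Field K] [Fintype K] [CharP K 2] (hq : 256 ≤ Fintype.card K) :
    ¬ ContainsH0 (graph K) ∧ (graph K).CliqueFree 4 ∧ Arrows (graph K) := by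
  refine ⟨?_, ?_, ?_⟩
  · rintro ⟨g, hg, h⟩
    exact Pool.Agent.H61.FA.noH0 g hg fun i j hij h1 => (adj_iff _ _).1 (h i j hij h1)
  · by_contra hcon
    let φ := SimpleGraph.topEmbeddingOfNotCliqueFree hcon
    have h : ∀ i j : Fin 4, i ≠ j → Pool.Agent.H61.FA.Adj (φ i) (φ j) := fun i j hij =>
      (adj_iff _ _).1 (φ.map_rel_iff.2 hij)
    exact Pool.Agent.H61.FA.no_K4 (h 0 2 (by decide)) (h 0 3 (by decide)) (h 1 2 (by decide))
      (h 1 3 (by decide)) (h 0 1 (by decide)) (h 2 3 (by decide))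
  · intro c hc
    obtain ⟨x, y, z, h1, h2, h3, h4, h5⟩ := Pool.Agent.H61.FA.arrows hq c fun x y hxy =>
      hc x y ((adj_iff x y).2 hxy)
    exact ⟨x, y, z, (adj_iff _ _).2 h1, (adj_iff _ _).2 h2, (adj_iff _ _).2 h3, h4, h5⟩

/-- transport to `Fin n` -/
theorem transport {V : Type} {n : ℕ} (e : V ≃ Fin n) (G : SimpleGraph V) (h0 : ¬ ContainsH0 G)
    (h4 : G.CliqueFree 4) (ha : Arrows G) :
    ∃ G' : SimpleGraph (Fin n), ¬ ContainsH0 G' ∧ G'.CliqueFree 4 ∧ Arrows G' := by
  refine ⟨G.comap e.symm, ?_, ?_, ?_⟩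
  · rintro ⟨g, hg, h⟩
    exact h0 ⟨fun i => e.symm (g i), fun i j hij => hg (e.symm.injective hij),
      fun i j hij h1 => h i j hij h1⟩
  · exact h4.comap (SimpleGraph.Embedding.comap e.symm.toEmbedding G).isContained
  · intro c hc
    obtain ⟨x, y, z, h1, h2, h3, h4, h5⟩ := ha (fun x y => c (e x) (e y)) fun x y hxy =>
      hc (e x) (e y) (by
        show G.Adj (e.symm (e x)) (e.symm (e y))
        rw [e.symm_apply_apply, e.symm_apply_apply]
        exact hxy)
    refine ⟨e x, e y, e z, ?_, ?_, ?_, h4, h5⟩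
    · show G.Adj (e.symm (e x)) (e.symm (e y))
      rw [e.symm_apply_apply, e.symm_apply_apply]
      exact h1
    · show G.Adj (e.symm (e y)) (e.symm (e z))
      rw [e.symm_apply_apply, e.symm_apply_apply]
      exact h2
    · show G.Adj (e.symm (e x)) (e.symm (e z))
      rw [e.symm_apply_apply, e.symm_apply_apply]
      exact h3

theorem result :
    (∀ (K : Type) [Field K] [Fintype K] [CharP K 2], 256 ≤ Fintype.card K →
      ¬ ContainsH0 (graph K) ∧ (graph K).CliqueFree 4 ∧ Arrows (graph K)) ∧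
    ∃ G : SimpleGraph (Fin (2 ^ 48)), ¬ ContainsH0 G ∧ G.CliqueFree 4 ∧ Arrows G := by
  refine ⟨fun K => main K, ?_⟩
  have _ : Fintype (GaloisField 2 8) := Fintype.ofFinite _
  have hcard : Fintype.card (GaloisField 2 8) = 2 ^ 8 := by
    rw [← Nat.card_eq_fintype_card]
    exact GaloisField.card 2 8 (by norm_num)
  have hV : Fintype.card (GaloisField 2 8 × (GaloisField 2 8 × GaloisField 2 8 ×
      GaloisField 2 8 × GaloisField 2 8 × GaloisField 2 8)) = 2 ^ 48 := by
    simp only [Fintype.card_prod, hcard]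
    norm_num
  obtain ⟨h0, h4, ha⟩ := main (GaloisField 2 8) (by rw [hcard]; norm_num)
  exact transport (Fintype.equivFinOfCardEq hV) _ h0 h4 ha

end Pool.Agent.Results.MP_eb1b1c_co.AlgebraicGraph
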