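import Pool.Agent.H53.FV.Fin42

/-!
# Graphs with at most 41 vertices (MP_eb1b1c_co)

Every graph `G` with `G → (3,3)` which has at most 41 vertices contains `H₀` (`K₅` minus the edges `01`, `23`, `34`).
-/

set_option autoImplicit false

namespace Pool.Agent.Results.MP_eb1b1c_co.FortyOneVertices

/-- a copy of `K₅` minus the edges `01`, `23`, `34` (a subgraph, not necessarily induced) -/
def ContainsH0 {V : Type} (G : SimpleGraph V) : Prop :=
  ∃ f : Fin 5 → V, Function.Injective f ∧ ∀ i j : Fin 5, i ≠ j →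
    ¬ ((i = 0 ∧ j = 1) ∨ (i = 1 ∧ j = 0) ∨ (i = 2 ∧ j = 3) ∨ (i = 3 ∧ j = 2) ∨
      (i = 3 ∧ j = 4) ∨ (i = 4 ∧ j = 3)) → G.Adj (f i) (f j)

/-- every colouring of the edges with two colours has a monochromatic triangle -/
def Arrows {V : Type} (G : SimpleGraph V) : Prop :=
  ∀ c : V → V → Bool, (∀ x y : V, G.Adj x y → c x y = c y x) →
    ∃ x y z : V, G.Adj x y ∧ G.Adj y z ∧ G.Adj x z ∧ c x y = c y z ∧ c y z = c x z

/-- Every graph with `G → (3,3)` that has at most 41 vertices contains `H₀`. -/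
theorem result : ∀ (V : Type) [Finite V] (G : SimpleGraph V), Arrows G → Nat.card V ≤ 41 → ContainsH0 G := by
  classical
  intro V _ G hA hb
  have := Fintype.ofFinite V
  by_contra hcon
  have hgood : ¬ ∃ c, Pool.Agent.H53.FV.Good G c := by
    rintro ⟨c, hc1, hc2⟩
    obtain ⟨x, y, z, h1, h2, h3, h4, h5⟩ := hA c hc1
    exact hc2 x y z h1 h2 h3 ⟨h4, h5⟩
  obtain ⟨H, hHG, hcrit, hNo⟩ := Pool.Agent.H53.FV.exists_crit G hgood (Pool.Agent.H53.FV.noH_of G hcon)
  have h1 := Pool.Agent.H53.FV.crit_42 H hcrit hNo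
  rw [Nat.card_eq_fintype_card] at hb
  omega

end Pool.Agent.Results.MP_eb1b1c_co.FortyOneVertices
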