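import Pool.Agent.H53.FV.Fin

/-!
# Graphs in which every vertex has degree at most 9 or lies in at most 14 triangles (MP_eb1b1c_co)

Every finite graph `G` with `G → (3,3)`, every vertex of which has degree at most 9 or lies in at most 14 triangles, contains
`H₀` (`K₅` minus the edges `01`, `23`, `34`).
-/

set_option autoImplicit false

namespace Pool.Agent.Results.MP_eb1b1c_co.FourteenTriangles

/-- a copy of `K₅` minus the edges `01`, `23`, `34` (a subgraph, not necessarily induced) -/
def ContainsH0 {V : Type} (G : SimpleGraph V) : Prop :=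
  ∃ f : Fin 5 → V, Function.Injective f ∧ ∀ i j : Fin 5, i ≠ j →
    ¬ ((i = 0 ∧ j = 1) ∨ (i = 1 ∧ j = 0) ∨ (i = 2 ∧ j = 3) ∨ (i = 3 ∧ j = 2) ∨
      (i = 3 ∧ j = 4) ∨ (i = 4 ∧ j = 3)) → G.Adj (f i) (f j)

/-- every colouring of the edges with two colours has a monochromatic triangle -/
def Arrows {V : Type} (G : SimpleGraph V) : Prop :=
  ∀ c : V → V → Bool, (∀ x y : V, G.Adj x y → c x y = c y x) →
    ∃ x y z : V, G.Adj x y ∧ G.Adj y z ∧ G.Adj x z ∧ c x y = c y z ∧ c y z = c x z

/-- Every finite graph with `G → (3,3)`, every vertex of which has degree at most 9 or lies in at most 14 triangles,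
contains `H₀`. -/
theorem result : ∀ (V : Type) [Finite V] (G : SimpleGraph V), Arrows G →
    (∀ v : V, (G.neighborSet v).ncard ≤ 9 ∨ {s : Finset V | G.IsNClique 3 s ∧ v ∈ s}.ncard ≤ 14) → ContainsH0 G := by
  classical
  intro V _ G hA hb
  have := Fintype.ofFinite V
  by_contra hcon
  have hgood : ¬ ∃ c, Pool.Agent.H53.FV.Good G c := by
    rintro ⟨c, hc1, hc2⟩
    obtain ⟨x, y, z, h1, h2, h3, h4, h5⟩ := hA c hc1
    exact hc2 x y z h1 h2 h3 ⟨h4, h5⟩
  obtain ⟨H, hHG, hcrit, hNo⟩ := Pool.Agent.H53.FV.exists_crit G hgood (Pool.Agent.H53.FV.noH_of G hcon)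
  obtain ⟨u, h1, h2⟩ := Pool.Agent.H53.FV.crit_tri H hcrit hNo
  rcases hb u with hb | hb
  · have h3 : (G.neighborSet u).ncard = (Pool.Agent.H53.FV.nb G u).card := by
      rw [← Set.ncard_coe_finset]
      congr 1
      ext v
      simp [Pool.Agent.H53.FV.nb]
    have h4 : (Pool.Agent.H53.FV.nb H u).card ≤ (Pool.Agent.H53.FV.nb G u).card := by
      refine Finset.card_le_card fun v hv => ?_
      simp only [Pool.Agent.H53.FV.nb, Finset.mem_filter, Finset.mem_univ, true_and] at hv ⊢
      exact hHG hv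
    omega
  · have h3 := Pool.Agent.H53.FV.tri_le H G hHG u
    omega

end Pool.Agent.Results.MP_eb1b1c_co.FourteenTriangles
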